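import Mathlib
import Pool.Agent.P.MP_be7f3b_co.Center

set_option autoImplicit false

namespace Pool.Agent.Results.MP_be7f3b_co.ColorfulFingerhut

/-- Colorful Fingerhut problem in any real inner product space: if the red-blue matching
`r i ↔ b i` has maximal total length, some point `o` lies in all the ellipsoids. -/
theorem result (E : Type*) [NormedAddCommGroup E] [InnerProductSpace ℝ E]
    (n : ℕ) (r b : Fin n → E)
    (hmax : ∀ σ : Equiv.Perm (Fin n), ∑ i, ‖r i - b (σ i)‖ ≤ ∑ i, ‖r i - b i‖) :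
    ∃ o : E, ∀ i, ‖r i - o‖ + ‖b i - o‖ ≤ √2 * ‖r i - b i‖ := by
  obtain ⟨φ, hφ⟩ := Pool.Agent.P.MP_be7f3b_co.exists_potential
    (fun i j => ‖r j - b j‖ - ‖r i - b j‖) (fun i => sub_self _) (fun σ => by
      rw [Finset.sum_sub_distrib, Equiv.sum_comp σ fun j => ‖r j - b j‖]
      exact sub_nonneg.2 (hmax σ))
  obtain ⟨o, ho⟩ := Pool.Agent.P.MP_be7f3b_co.exists_center r b φ (fun j => ‖r j - b j‖ - φ j)
    (fun i j => by linarith [hφ i j])
  exact ⟨o, fun i => by simpa using ho i i⟩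

end Pool.Agent.Results.MP_be7f3b_co.ColorfulFingerhut
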